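import Mathlib

/-!
A properly embedded complete stationary surface in the Lorentz space `ℝ⁴₁`, of genus zero with two
ends, whose total Gaussian curvature is infinite: the catenoid twisted by a holomorphic family of
Lorentz boosts.
-/

namespace Pool.Agent.Results.MP_7009f9_gt.TwistedCatenoid

open Set MeasureTheory Filter Topology Complex
open scoped ContDiff ENNReal ComplexConjugate

noncomputable section

/-! ### Definitions -/

/-- The Lorentz inner product `-a₀b₀ + a₁b₁ + a₂b₂ + a₃b₃` of `ℝ⁴₁`. -/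
def lor (a b : Fin 4 → ℝ) : ℝ := -(a 0 * b 0) + a 1 * b 1 + a 2 * b 2 + a 3 * b 3

/-- The metric induced by `X` at `p`: `g_p(v, w) = ⟨dX_p v, dX_p w⟩`, for `X` defined near the
point `p` of the plane `ℂ = ℝ²`. -/
def inducedMetric (X : ℂ → Fin 4 → ℝ) (p v w : ℂ) : ℝ := lor (fderiv ℝ X p v) (fderiv ℝ X p w)

/-- `X` is a spacelike immersion of `U`: the induced metric is positive definite. -/
def IsSpacelikeOn (X : ℂ → Fin 4 → ℝ) (U : Set ℂ) : Prop :=
  ∀ p ∈ U, ∀ v : ℂ, v ≠ 0 → 0 < inducedMetric X p v v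

/-- The second derivative `D²X_p(v, w)`. -/
def secondDeriv (X : ℂ → Fin 4 → ℝ) (p v w : ℂ) : Fin 4 → ℝ :=
  fderiv ℝ (fun q => fderiv ℝ X q v) p w

/-- The mean curvature vector of `X` vanishes on `U`: at each `p ∈ U` and for every basis `v, w`
orthonormal for the induced metric, the trace `D²X(v, v) + D²X(w, w)` is tangent to the surface,
that is, its normal part `II(v, v) + II(w, w)` (twice the mean curvature vector) is zero. -/
def HasZeroMeanCurvatureOn (X : ℂ → Fin 4 → ℝ) (U : Set ℂ) : Prop :=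
  ∀ p ∈ U, ∀ v w : ℂ, inducedMetric X p v v = 1 → inducedMetric X p w w = 1 →
    inducedMetric X p v w = 0 →
    ∃ t : ℂ, secondDeriv X p v v + secondDeriv X p w w = fderiv ℝ X p t

/-- The coefficient `E` of the induced metric. -/
def cE (X : ℂ → Fin 4 → ℝ) (p : ℂ) : ℝ := inducedMetric X p 1 1

/-- The coefficient `F` of the induced metric. -/
def cF (X : ℂ → Fin 4 → ℝ) (p : ℂ) : ℝ := inducedMetric X p 1 I

/-- The coefficient `G` of the induced metric. -/
def cG (X : ℂ → Fin 4 → ℝ) (p : ℂ) : ℝ := inducedMetric X p I I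

/-- Partial derivative with respect to the first coordinate of `ℂ = ℝ²`. -/
def dx (f : ℂ → ℝ) (p : ℂ) : ℝ := lineDeriv ℝ f p 1

/-- Partial derivative with respect to the second coordinate of `ℂ = ℝ²`. -/
def dy (f : ℂ → ℝ) (p : ℂ) : ℝ := lineDeriv ℝ f p I

/-- The Gaussian curvature of the induced metric, by Brioschi's formula. -/
def gaussCurvature (X : ℂ → Fin 4 → ℝ) (p : ℂ) : ℝ :=
  (Matrix.det !![-(dy (dy (cE X)) p) / 2 + dy (dx (cF X)) p - dx (dx (cG X)) p / 2,
        dx (cE X) p / 2, dx (cF X) p - dy (cE X) p / 2;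
      dy (cF X) p - dx (cG X) p / 2, cE X p, cF X p;
      dy (cG X) p / 2, cF X p, cG X p] -
    Matrix.det !![0, dy (cE X) p / 2, dx (cG X) p / 2;
      dy (cE X) p / 2, cE X p, cF X p;
      dx (cG X) p / 2, cF X p, cG X p]) / (cE X p * cG X p - cF X p ^ 2) ^ 2

/-- The density of the area form of the induced metric. -/
def areaDensity (X : ℂ → Fin 4 → ℝ) (p : ℂ) : ℝ := √(cE X p * cG X p - cF X p ^ 2)

/-- The total absolute Gaussian curvature `∫_U |K| dA` of the surface `X : U → ℝ⁴₁`. -/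
def totalAbsCurvature (X : ℂ → Fin 4 → ℝ) (U : Set ℂ) : ℝ≥0∞ :=
  ∫⁻ p in U, ENNReal.ofReal (|gaussCurvature X p| * areaDensity X p)

/-- The length of the curve `γ : [0,1] → U` for the induced metric. -/
def curveLength (X : ℂ → Fin 4 → ℝ) (γ : ℝ → ℂ) : ℝ :=
  ∫ t in (0 : ℝ)..1, √(inducedMetric X (γ t) (deriv γ t) (deriv γ t))

/-- The distance on `U` of the induced metric: the infimum of the lengths of the `C¹` curves
in `U` from `p` to `q`. -/
def inducedDist (X : ℂ → Fin 4 → ℝ) (U : Set ℂ) (p q : ℂ) : ℝ≥0∞ :=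
  ⨅ (γ : ℝ → ℂ) (_ : ContDiff ℝ 1 γ) (_ : γ 0 = p) (_ : γ 1 = q) (_ : ∀ t ∈ Icc (0 : ℝ) 1, γ t ∈ U),
    ENNReal.ofReal (curveLength X γ)

/-- The induced metric is complete: every Cauchy sequence of `U` converges in `U`. -/
def IsCompleteOn (X : ℂ → Fin 4 → ℝ) (U : Set ℂ) : Prop :=
  ∀ s : ℕ → ℂ, (∀ n, s n ∈ U) →
    (∀ ε : ℝ≥0∞, 0 < ε → ∃ N, ∀ m ≥ N, ∀ n ≥ N, inducedDist X U (s m) (s n) < ε) →
    ∃ p ∈ U, Tendsto (fun n => inducedDist X U (s n) p) atTop (𝓝 0)

/-- `U` is of finite topological type with at least two ends: it is connected and homeomorphic to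
the sphere `ℂ ∪ {∞}` minus a finite set of at least two points. -/
def IsSphereWithPunctures (U : Set ℂ) : Prop :=
  IsConnected U ∧ ∃ F : Finset (OnePoint ℂ), 2 ≤ F.card ∧
    Nonempty (U ≃ₜ {x : OnePoint ℂ // x ∉ F})

/-! ### The surface -/

/-- a primitive of the entire function `(e^w - 1) / w` -/
theorem exists_S : ∃ S : ℂ → ℂ, ∀ w, HasDerivAt S (dslope exp 0 w) w := by
  have h : Differentiable ℂ (dslope exp (0 : ℂ)) := by
    rw [← differentiableOn_univ]
    exact (differentiableOn_dslope univ_mem).2 Complex.differentiable_exp.differentiableOn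
  obtain ⟨S, hS⟩ := h.isExactOn_univ
  exact ⟨S, fun w => hS w trivial⟩

def S : ℂ → ℂ := Classical.choose exists_S

theorem hasDerivAt_S (w : ℂ) : HasDerivAt S (dslope exp 0 w) w := Classical.choose_spec exists_S w

theorem dslope_exp {w : ℂ} (hw : w ≠ 0) : dslope exp 0 w = (exp w - 1) / w := by
  rw [dslope_of_ne _ hw, slope_def_field]
  simp

/-- the exponent -/
def q (z : ℂ) : ℂ := z ^ 2 / 32

/-- the holomorphic derivatives of the coordinates -/
def φ : Fin 4 → ℂ → ℂ :=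
  ![fun z => (exp (q z) - exp (-q z)) / z, fun z => 1 - (z ^ 2)⁻¹,
    fun z => -I * (1 + (z ^ 2)⁻¹), fun z => -(exp (q z) + exp (-q z)) / z]

/-- the surface -/
def X (z : ℂ) : Fin 4 → ℝ :=
  ![((S (q z)).re - (S (-q z)).re) / 2, (z + z⁻¹).re, (z - z⁻¹).im,
    -(2 * Real.log ‖z‖) - ((S (q z)).re + (S (-q z)).re) / 2]

/-- the real linear form `v ↦ Re (a v)` -/
def L (a : ℂ) : ℂ →L[ℝ] ℝ := Complex.reCLM.comp (a • (1 : ℂ →L[ℝ] ℂ))

theorem L_apply (a v : ℂ) : L a v = (a * v).re := by simp [L]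

theorem hasFDerivAt_re {Φ : ℂ → ℂ} {a z : ℂ} (h : HasDerivAt Φ a z) :
    HasFDerivAt (fun w => (Φ w).re) (L a) z :=
  (Complex.reCLM.hasFDerivAt.comp z h.complexToReal_fderiv)

theorem L_add (a b : ℂ) : L (a + b) = L a + L b := by
  ext v; simp only [L_apply, _root_.add_apply]; rw [add_mul, add_re]

theorem L_sub (a b : ℂ) : L (a - b) = L a - L b := by
  ext v; simp only [L_apply, _root_.sub_apply]; rw [sub_mul, sub_re]

theorem L_neg (a : ℂ) : L (-a) = -L a := by
  ext v; simp only [L_apply, _root_.neg_apply]; rw [neg_mul, neg_re]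

theorem hasFDerivAt_log_norm {z : ℂ} (hz : z ≠ 0) :
    HasFDerivAt (fun w : ℂ => Real.log ‖w‖) (L z⁻¹) z := by
  have h1 : HasDerivAt (fun w : ℂ => Complex.log (w / z)) (z⁻¹) z := by
    have h2 : HasDerivAt (fun w : ℂ => w / z) (1 / z) z := (hasDerivAt_id z).div_const z
    have h3 : HasDerivAt Complex.log ((z / z)⁻¹) ((fun w : ℂ => w / z) z) := by
      apply Complex.hasDerivAt_log
      show z / z ∈ slitPlane
      rw [div_self hz]
      exact one_mem_slitPlane
    have h4 := HasDerivAt.comp (h := fun w : ℂ => w / z) z h3 h2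
    rw [div_self hz] at h4
    simpa [Function.comp_def] using h4
  have h5 := (hasFDerivAt_re h1).add_const (Real.log ‖z‖)
  refine h5.congr_of_eventuallyEq ?_
  filter_upwards [isOpen_ne.mem_nhds hz] with w hw
  rw [Complex.log_re, norm_div, Real.log_div (by simpa using hw) (by simpa using hz)]
  ring

theorem hasDerivAt_q (z : ℂ) : HasDerivAt q (z / 16) z := by
  have h := ((hasDerivAt_id z).pow 2).div_const 32
  refine h.congr_deriv ?_
  simp
  ring

theorem q_ne {z : ℂ} (hz : z ≠ 0) : q z ≠ 0 :=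
  div_ne_zero (pow_ne_zero 2 hz) (by norm_num)

theorem hasDerivAt_Sq {z : ℂ} (hz : z ≠ 0) :
    HasDerivAt (fun w => S (q w)) (2 * (exp (q z) - 1) / z) z := by
  have h := (hasDerivAt_S (q z)).comp z (hasDerivAt_q z)
  have hq : q z ≠ 0 := q_ne hz
  refine h.congr_deriv ?_
  rw [dslope_exp hq]
  unfold q
  field_simp
  ring

theorem hasDerivAt_Snq {z : ℂ} (hz : z ≠ 0) :
    HasDerivAt (fun w => S (-q w)) (2 * (exp (-q z) - 1) / z) z := by
  have h := (hasDerivAt_S (-q z)).comp z (hasDerivAt_q z).neg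
  have hq : q z ≠ 0 := q_ne hz
  refine h.congr_deriv ?_
  rw [dslope_exp (neg_ne_zero.2 hq)]
  unfold q
  field_simp
  ring

theorem hasFDerivAt_X {z : ℂ} (hz : z ≠ 0) :
    HasFDerivAt X (ContinuousLinearMap.pi fun j => L (φ j z)) z := by
  rw [hasFDerivAt_pi]
  intro j
  have h1 := hasFDerivAt_re (hasDerivAt_Sq hz)
  have h2 := hasFDerivAt_re (hasDerivAt_Snq hz)
  fin_cases j
  · have h := ((h1.sub h2).mul_const (1/2 : ℝ))
    refine HasFDerivAt.congr_fderiv (f' := (1/2 : ℝ) • (L (2 * (exp (q z) - 1) / z) -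
      L (2 * (exp (-q z) - 1) / z))) ?_ ?_
    · refine h.congr_of_eventuallyEq (Eventually.of_forall fun w => ?_)
      simp [X]
      ring
    · ext v
      simp only [_root_.smul_apply, _root_.sub_apply, L_apply, φ,
        smul_eq_mul]
      have : ((exp (q z) - exp (-q z)) / z * v) =
        ((1/2 : ℝ) : ℂ) * ((2 * (exp (q z) - 1) / z) * v - (2 * (exp (-q z) - 1) / z) * v) := by
        push_cast
        ring
      simp only [Matrix.cons_val_zero, Fin.zero_eta]
      rw [this, re_ofReal_mul, sub_re]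
  · have h : HasDerivAt (fun w : ℂ => w + w⁻¹) (1 - (z ^ 2)⁻¹) z := by
      have := (hasDerivAt_id z).add (hasDerivAt_inv hz)
      refine this.congr_deriv ?_
      ring
    exact hasFDerivAt_re h
  · have h : HasDerivAt (fun w : ℂ => -I * (w - w⁻¹)) (-I * (1 + (z ^ 2)⁻¹)) z := by
      have := ((hasDerivAt_id z).sub (hasDerivAt_inv hz)).const_mul (-I)
      refine this.congr_deriv ?_
      ring
    have h3 := hasFDerivAt_re h
    refine h3.congr_of_eventuallyEq (Eventually.of_forall fun w => ?_)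
    simp [X]
  · have h0 := hasFDerivAt_log_norm hz
    have h := ((h0.const_mul (2 : ℝ)).neg).sub ((h1.add h2).mul_const (1/2 : ℝ))
    refine HasFDerivAt.congr_fderiv (f' := -((2 : ℝ) • L z⁻¹) - (1/2 : ℝ) •
      (L (2 * (exp (q z) - 1) / z) + L (2 * (exp (-q z) - 1) / z))) ?_ ?_
    · refine h.congr_of_eventuallyEq (Eventually.of_forall fun w => ?_)
      simp [X]
      ring
    · ext v
      simp only [_root_.smul_apply, _root_.sub_apply,
        _root_.neg_apply, _root_.add_apply, L_apply, φ, smul_eq_mul]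
      have : (-(exp (q z) + exp (-q z)) / z * v) =
        -(((2 : ℝ) : ℂ) * (z⁻¹ * v)) -
        ((1/2 : ℝ) : ℂ) * ((2 * (exp (q z) - 1) / z) * v + (2 * (exp (-q z) - 1) / z) * v) := by
        push_cast
        field_simp
        ring
      simp only [Fin.reduceFinMk, Matrix.cons_val]
      rw [this, sub_re, neg_re, re_ofReal_mul, re_ofReal_mul, add_re]

theorem fderiv_X {z : ℂ} (hz : z ≠ 0) (v : ℂ) :
    fderiv ℝ X z v = fun j => (φ j z * v).re := by
  rw [(hasFDerivAt_X hz).fderiv]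
  ext j
  simp only [ContinuousLinearMap.coe_pi', L_apply]

/-- the conformal factor -/
def lam (z : ℂ) : ℝ :=
  1 + (z.re ^ 2 + z.im ^ 2)⁻¹ ^ 2 + 2 * (z.re ^ 2 + z.im ^ 2)⁻¹ * Real.cos (z.re * z.im / 8)

theorem normSq_pos' {z : ℂ} (hz : z ≠ 0) : 0 < z.re ^ 2 + z.im ^ 2 := by
  have := normSq_pos.2 hz
  rw [normSq_apply] at this
  nlinarith

theorem q_im (z : ℂ) : (q z).im = z.re * z.im / 16 := by
  have : q z = ((1 / 32 : ℝ) : ℂ) * (z * z) := by unfold q; push_cast; ring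
  rw [this, im_ofReal_mul, mul_im]
  ring

theorem q_re (z : ℂ) : (q z).re = (z.re ^ 2 - z.im ^ 2) / 32 := by
  have : q z = ((1 / 32 : ℝ) : ℂ) * (z * z) := by unfold q; push_cast; ring
  rw [this, re_ofReal_mul, mul_re]
  ring

/-- conformality -/
theorem conf {z : ℂ} (hz : z ≠ 0) :
    -(φ 0 z) ^ 2 + φ 1 z ^ 2 + φ 2 z ^ 2 + φ 3 z ^ 2 = 0 := by
  have h : exp (q z) * exp (-q z) = 1 := by rw [← exp_add]; simp
  simp only [φ, Matrix.cons_val]
  have hI : I ^ 2 = -1 := I_sq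
  field_simp
  linear_combination (4 * z ^ 2) * h + (z ^ 4 + 2 * z ^ 2 + 1) * hI

/-- the norm of the derivative -/
theorem normφ {z : ℂ} (hz : z ≠ 0) :
    -normSq (φ 0 z) + normSq (φ 1 z) + normSq (φ 2 z) + normSq (φ 3 z) = 2 * lam z := by
  have hN : normSq z = z.re ^ 2 + z.im ^ 2 := by rw [normSq_apply]; ring
  have e0 : normSq (φ 0 z) = (normSq (exp (q z)) + normSq (exp (-q z)) -
      2 * (exp (q z) * conj (exp (-q z))).re) / normSq z := by
    simp only [φ, Matrix.cons_val]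
    rw [normSq_div, normSq_sub]
  have e3 : normSq (φ 3 z) = (normSq (exp (q z)) + normSq (exp (-q z)) +
      2 * (exp (q z) * conj (exp (-q z))).re) / normSq z := by
    simp only [φ, Matrix.cons_val]
    rw [normSq_div, normSq_neg, normSq_add]
  have e1 : normSq (φ 1 z) = 1 + normSq (z ^ 2)⁻¹ - 2 * (conj (z ^ 2)⁻¹).re := by
    simp only [φ, Matrix.cons_val]
    rw [normSq_sub, one_mul, normSq_one]
  have e2 : normSq (φ 2 z) = 1 + normSq (z ^ 2)⁻¹ + 2 * (conj (z ^ 2)⁻¹).re := by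
    simp only [φ, Matrix.cons_val]
    rw [normSq_mul, normSq_neg, normSq_I, normSq_add, one_mul, one_mul, normSq_one]
  have e4 : (exp (q z) * conj (exp (-q z))).re = Real.cos (z.re * z.im / 8) := by
    rw [← exp_conj, ← exp_add]
    have : q z + conj (-q z) = ((z.re * z.im / 8 : ℝ) : ℂ) * I := by
      apply Complex.ext
      · simp
      · simp [q_im]
        ring
    rw [this, exp_ofReal_mul_I_re]
  rw [e0, e1, e2, e3, e4, normSq_inv, map_pow, hN]
  unfold lam
  have := normSq_pos' hz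
  field_simp
  ring

/-- the induced metric is conformal to the flat one with factor `lam` -/
theorem metric_X {z : ℂ} (hz : z ≠ 0) (v w : ℂ) :
    inducedMetric X z v w = lam z * (v.re * w.re + v.im * w.im) := by
  have h1 := conf hz
  have h2 := normφ hz
  unfold inducedMetric lor
  rw [fderiv_X hz, fderiv_X hz]
  have h3 := congrArg Complex.re h1
  have h4 := congrArg Complex.im h1
  simp only [sq, add_re, add_im, neg_re, neg_im, mul_re, mul_im, zero_re, zero_im, normSq_apply]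
    at h2 h3 h4 ⊢
  linear_combination ((v.re * w.re + v.im * w.im) / 2) * h2 +
    ((v.re * w.re - v.im * w.im) / 2) * h3 - ((v.re * w.im + v.im * w.re) / 2) * h4

theorem abs_xy_le (z : ℂ) : |z.re * z.im| ≤ (z.re ^ 2 + z.im ^ 2) / 2 := by
  rw [abs_le]
  constructor <;> nlinarith [sq_nonneg (z.re + z.im), sq_nonneg (z.re - z.im)]

theorem lam_lower {z : ℂ} (hz : z ≠ 0) : (1 + (z.re ^ 2 + z.im ^ 2)⁻¹) ^ 2 / 2 ≤ lam z := by
  have hN := normSq_pos' hz
  set N := z.re ^ 2 + z.im ^ 2 with hNdef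
  have hxy : |z.re * z.im| ≤ N / 2 := abs_xy_le z
  have hi : 0 < N⁻¹ := inv_pos.2 hN
  have hlam : lam z = (1 + N⁻¹) ^ 2 - 2 * N⁻¹ * (1 - Real.cos (z.re * z.im / 8)) := by
    unfold lam
    rw [← hNdef]
    ring
  have hc : 1 - Real.cos (z.re * z.im / 8) ≤ (z.re * z.im / 8) ^ 2 / 2 := by
    have := Real.one_sub_sq_div_two_le_cos (x := z.re * z.im / 8)
    linarith
  have hc2 : 1 - Real.cos (z.re * z.im / 8) ≤ 2 := by
    have := Real.neg_one_le_cos (z.re * z.im / 8)
    linarith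
  have hsq : (z.re * z.im) ^ 2 ≤ (N / 2) ^ 2 := by
    rw [← sq_abs]
    exact pow_le_pow_left₀ (abs_nonneg _) hxy 2
  have key : 2 * N⁻¹ * (1 - Real.cos (z.re * z.im / 8)) ≤ 1 / 2 := by
    rcases le_total N 16 with h | h
    · have h1 : 1 - Real.cos (z.re * z.im / 8) ≤ N * (N / 512) := by nlinarith
      calc 2 * N⁻¹ * (1 - Real.cos (z.re * z.im / 8)) ≤ 2 * N⁻¹ * (N * (N / 512)) :=
            mul_le_mul_of_nonneg_left h1 (by positivity)
        _ = N / 256 := by field_simp; norm_num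
        _ ≤ 1 / 2 := by linarith
    · have h1 : N⁻¹ ≤ 1 / 16 := by
        rw [inv_le_comm₀ hN (by norm_num)]
        simpa using h
      nlinarith
  rw [hlam]
  nlinarith

theorem lam_pos {z : ℂ} (hz : z ≠ 0) : 0 < lam z := by
  have := lam_lower hz
  have h2 := inv_pos.2 (normSq_pos' hz)
  have : 0 < (1 + (z.re ^ 2 + z.im ^ 2)⁻¹) ^ 2 / 2 := by positivity
  linarith

theorem spacelike : IsSpacelikeOn X {0}ᶜ := by
  intro p hp v hv
  rw [metric_X hp]
  have := normSq_pos' hv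
  have h2 := lam_pos hp
  have : v.re * v.re + v.im * v.im = v.re ^ 2 + v.im ^ 2 := by ring
  rw [this]
  positivity

theorem differentiableAt_φ {z : ℂ} (hz : z ≠ 0) (j : Fin 4) : DifferentiableAt ℂ (φ j) z := by
  have hq : DifferentiableAt ℂ q z := (hasDerivAt_q z).differentiableAt
  have h2 : z ^ 2 ≠ 0 := pow_ne_zero 2 hz
  fin_cases j
  · exact (hq.cexp.sub hq.neg.cexp).div differentiableAt_id hz
  · exact (differentiableAt_const _).sub ((differentiableAt_id.pow 2).inv h2)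
  · exact ((differentiableAt_const _).add ((differentiableAt_id.pow 2).inv h2)).const_mul _
  · exact ((hq.cexp.add hq.neg.cexp).neg).div differentiableAt_id hz

theorem secondDeriv_X {z : ℂ} (hz : z ≠ 0) (v w : ℂ) :
    secondDeriv X z v w = fun j => (deriv (φ j) z * v * w).re := by
  unfold secondDeriv
  have h1 : (fun p => fderiv ℝ X p v) =ᶠ[𝓝 z] fun p j => (φ j p * v).re := by
    filter_upwards [isOpen_ne.mem_nhds hz] with p hp
    exact fderiv_X hp v
  rw [h1.fderiv_eq]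
  have h2 : HasFDerivAt (fun (p : ℂ) (j : Fin 4) => (φ j p * v).re)
      (ContinuousLinearMap.pi fun j => L (deriv (φ j) z * v)) z := by
    rw [hasFDerivAt_pi]
    intro j
    exact hasFDerivAt_re ((differentiableAt_φ hz j).hasDerivAt.mul_const v)
  rw [h2.fderiv]
  ext j
  simp only [ContinuousLinearMap.coe_pi', L_apply]

theorem zeroMean : HasZeroMeanCurvatureOn X {0}ᶜ := by
  intro p hp v w hv hw hvw
  refine ⟨0, ?_⟩
  rw [metric_X hp] at hv hw hvw
  have hl := lam_pos hp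
  have h1 : v.re * w.re + v.im * w.im = 0 := by
    rcases mul_eq_zero.1 hvw with h | h
    · exact absurd h hl.ne'
    · exact h
  have h2 : v.re * v.re + v.im * v.im = w.re * w.re + w.im * w.im := by
    have : lam p * (v.re * v.re + v.im * v.im) = lam p * (w.re * w.re + w.im * w.im) := by
      rw [hv, hw]
    exact mul_left_cancel₀ hl.ne' this
  have h3 : 0 < w.re * w.re + w.im * w.im := by
    by_contra h
    push Not at h
    nlinarith
  have h4 : v.re ^ 2 = w.im ^ 2 := by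
    have : (v.re ^ 2 - w.im ^ 2) * (w.re * w.re + w.im * w.im) = 0 := by
      linear_combination (v.re * w.re - v.im * w.im) * h1 + w.im ^ 2 * h2
    rcases mul_eq_zero.1 this with h | h
    · linarith
    · exact absurd h h3.ne'
  have h5 : v.im ^ 2 = w.re ^ 2 := by nlinarith
  have h6 : v.re * v.im + w.re * w.im = 0 := by
    have e1 : (v.re * v.im + w.re * w.im) * w.re = 0 := by
      linear_combination v.im * h1 - w.im * h5
    have e2 : (v.re * v.im + w.re * w.im) * w.im = 0 := by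
      linear_combination v.re * h1 - w.re * h4
    have : (v.re * v.im + w.re * w.im) * (w.re * w.re + w.im * w.im) = 0 := by
      linear_combination w.re * e1 + w.im * e2
    rcases mul_eq_zero.1 this with h | h
    · exact h
    · exact absurd h h3.ne'
  have h7 : v * v + w * w = 0 := by
    apply Complex.ext
    · simp only [add_re, mul_re, zero_re]
      nlinarith
    · simp only [add_im, mul_im, zero_im]
      nlinarith
  rw [secondDeriv_X hp, secondDeriv_X hp, map_zero]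
  ext j
  have : deriv (φ j) p * v * v + deriv (φ j) p * w * w = 0 := by
    linear_combination deriv (φ j) p * h7
  simp only [Pi.add_apply, Pi.zero_apply]
  rw [← add_re, this, zero_re]

theorem contDiff_S : ContDiff ℝ ∞ S := by
  have h : Differentiable ℂ S := fun w => (hasDerivAt_S w).differentiableAt
  exact h.contDiff.restrict_scalars ℝ

theorem contDiffOn_X : ContDiffOn ℝ ∞ X {0}ᶜ := by
  intro z hz
  have hz' : z ≠ 0 := hz
  apply ContDiffAt.contDiffWithinAt
  rw [contDiffAt_pi]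
  have hq : ContDiff ℝ ∞ q := by
    unfold q
    exact (contDiff_id.pow 2).div_const _
  have h1 : ContDiffAt ℝ ∞ (fun z => (S (q z)).re) z :=
    (Complex.reCLM.contDiff.comp (contDiff_S.comp hq)).contDiffAt
  have h2 : ContDiffAt ℝ ∞ (fun z => (S (-q z)).re) z :=
    (Complex.reCLM.contDiff.comp (contDiff_S.comp hq.neg)).contDiffAt
  have hinv : ContDiffAt ℝ ∞ (fun z : ℂ => z⁻¹) z := contDiffAt_inv ℝ hz'
  have hlog : ContDiffAt ℝ ∞ (fun z : ℂ => Real.log ‖z‖) z :=
    (contDiffAt_norm ℝ hz').log (by simpa using hz')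
  intro j
  fin_cases j
  · exact (h1.sub h2).div_const 2
  · exact Complex.reCLM.contDiff.contDiffAt.comp z (contDiffAt_id.add hinv)
  · exact Complex.imCLM.contDiff.contDiffAt.comp z (contDiffAt_id.sub hinv)
  · exact ((contDiffAt_const.mul hlog).neg).sub ((h1.add h2).div_const 2)

/-! ### Injectivity -/

/-- the null coordinate along a ray, after the substitution `τ = t²` -/
def J (e : ℂ) (τ : ℝ) : ℝ := Real.log τ + (S (τ / 32 * e)).re

theorem hasDerivAt_J {e : ℂ} (he : e ≠ 0) {τ : ℝ} (hτ : 0 < τ) :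
    HasDerivAt (J e) ((exp (τ / 32 * e)).re / τ) τ := by
  have hτc : (τ : ℂ) ≠ 0 := ofReal_ne_zero.2 hτ.ne'
  have hne : (τ : ℂ) / 32 * e ≠ 0 := by
    apply mul_ne_zero _ he
    exact div_ne_zero hτc (by norm_num)
  have h1 : HasDerivAt (fun w : ℂ => S (w / 32 * e))
      (dslope exp 0 ((τ : ℂ) / 32 * e) * (e / 32)) (τ : ℂ) := by
    have h2 : HasDerivAt (fun w : ℂ => w / 32 * e) (1 / 32 * e) (τ : ℂ) :=
      ((hasDerivAt_id _).div_const 32).mul_const e
    have h3 := HasDerivAt.comp (h := fun w : ℂ => w / 32 * e) (τ : ℂ) (hasDerivAt_S _) h2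
    refine h3.congr_deriv ?_
    ring
  have h4 := h1.comp_ofReal
  have h5 : HasDerivAt (fun t : ℝ => (S ((t : ℂ) / 32 * e)).re)
      (dslope exp 0 ((τ : ℂ) / 32 * e) * (e / 32)).re τ := by
    have := (Complex.reCLM.hasFDerivAt.comp_hasDerivAt τ h4)
    exact this
  have h6 := (Real.hasDerivAt_log hτ.ne').add h5
  refine h6.congr_deriv ?_
  rw [dslope_exp hne]
  have ee : (exp ((τ : ℂ) / 32 * e) - 1) / ((τ : ℂ) / 32 * e) * (e / 32) =
      (exp ((τ : ℂ) / 32 * e) - 1) / (τ : ℂ) := by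
    field_simp
  rw [ee, div_ofReal_re, sub_re, one_re]
  ring

theorem J_mono_of {e : ℂ} (he : ‖e‖ = 1) {a b : ℝ} (ha : 0 < a) (hab : a < b) (hb : b ≤ 32) :
    J e a < J e b := by
  have he0 : e ≠ 0 := by rintro rfl; simp at he
  have h : StrictMonoOn (J e) (Icc a b) := by
    apply strictMonoOn_of_deriv_pos (convex_Icc a b)
    · intro t ht
      exact (hasDerivAt_J he0 (lt_of_lt_of_le ha ht.1)).continuousAt.continuousWithinAt
    · intro t ht
      rw [interior_Icc] at ht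
      have ht0 : 0 < t := ha.trans ht.1
      rw [(hasDerivAt_J he0 ht0).deriv]
      apply div_pos _ ht0
      rw [exp_re]
      apply mul_pos (Real.exp_pos _)
      apply Real.cos_pos_of_le_one
      have h1 : |((t : ℂ) / 32 * e).im| ≤ ‖(t : ℂ) / 32 * e‖ := abs_im_le_norm _
      rw [norm_mul, he, mul_one, norm_div, norm_real] at h1
      simp only [Real.norm_eq_abs, abs_of_pos ht0, norm_ofNat] at h1
      have : t / 32 ≤ 1 := by
        rw [div_le_one (by norm_num)]
        exact ht.2.le.trans hb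
      exact h1.trans this
  exact h (left_mem_Icc.2 hab.le) (right_mem_Icc.2 hab.le) hab

theorem J_one {e : ℂ} (he : ‖e‖ = 1) : J e (1 / 32) + 2 < J e 1 := by
  have he0 : e ≠ 0 := by rintro rfl; simp at he
  have h : MonotoneOn (fun t => J e t - 15 / 16 * Real.log t) (Icc (1 / 32) 1) := by
    apply monotoneOn_of_deriv_nonneg (convex_Icc _ _)
    · intro t ht
      have ht0 : 0 < t := lt_of_lt_of_le (by norm_num) ht.1
      exact ((hasDerivAt_J he0 ht0).sub
        ((Real.hasDerivAt_log ht0.ne').const_mul _)).continuousAt.continuousWithinAt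
    · intro t ht
      rw [interior_Icc] at ht
      have ht0 : 0 < t := lt_trans (by norm_num) ht.1
      exact ((hasDerivAt_J he0 ht0).sub
        ((Real.hasDerivAt_log ht0.ne').const_mul _)).differentiableAt.differentiableWithinAt
    · intro t ht
      rw [interior_Icc] at ht
      have ht0 : 0 < t := lt_trans (by norm_num) ht.1
      have hd := ((hasDerivAt_J he0 ht0).sub ((Real.hasDerivAt_log ht0.ne').const_mul (15 / 16)))
      have hd' : deriv (fun t => J e t - 15 / 16 * Real.log t) t =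
        (exp (t / 32 * e)).re / t - 15 / 16 * t⁻¹ := hd.deriv
      rw [hd']
      have h1 : ‖(t : ℂ) / 32 * e‖ = t / 32 := by
        rw [norm_mul, he, mul_one, norm_div, norm_real]
        simp [abs_of_pos ht0]
      have h2 : ‖exp ((t : ℂ) / 32 * e) - 1‖ ≤ 2 * ‖(t : ℂ) / 32 * e‖ := by
        apply norm_exp_sub_one_le
        rw [h1]
        linarith [ht.2]
      have h3 : |(exp ((t : ℂ) / 32 * e) - 1).re| ≤ ‖exp ((t : ℂ) / 32 * e) - 1‖ :=
        abs_re_le_norm _
      rw [sub_re, one_re, h1] at *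
      have h4 := neg_le_of_abs_le (h3.trans h2)
      have h5 : 15 / 16 ≤ (exp ((t : ℂ) / 32 * e)).re := by linarith [ht.2]
      have : (exp ((t : ℂ) / 32 * e)).re / t - 15 / 16 * t⁻¹ =
        ((exp ((t : ℂ) / 32 * e)).re - 15 / 16) * t⁻¹ := by ring
      rw [this]
      exact mul_nonneg (by linarith) (inv_nonneg.2 ht0.le)
  have h1 := h (left_mem_Icc.2 (by norm_num)) (right_mem_Icc.2 (by norm_num))
    (by norm_num : (1 / 32 : ℝ) ≤ 1)
  simp only [Real.log_one, mul_zero, sub_zero] at h1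
  have h2 : Real.log (1 / 32) = -(5 * Real.log 2) := by
    rw [one_div, Real.log_inv, show (32 : ℝ) = 2 ^ 5 by norm_num, Real.log_pow]
    norm_num
  rw [h2] at h1
  have h3 := Real.log_two_gt_d9
  linarith

theorem J_far {e : ℂ} (he : ‖e‖ = 1) (hre : e.re ≤ 0) {R : ℝ} (hR : 32 ≤ R) :
    J e 32 - 2 ≤ J e R := by
  have he0 : e ≠ 0 := by rintro rfl; simp at he
  have hexp : ∀ t : ℝ, 0 < t → ‖exp ((t : ℂ) / 32 * e)‖ ≤ 1 := by
    intro t ht
    rw [norm_exp]
    have : ((t : ℂ) / 32 * e).re = t / 32 * e.re := by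
      have : (t : ℂ) / 32 * e = ((t / 32 : ℝ) : ℂ) * e := by push_cast; ring
      rw [this, re_ofReal_mul]
    rw [this, Real.exp_le_one_iff]
    exact mul_nonpos_of_nonneg_of_nonpos (by positivity) hre
  let H : ℝ → ℝ := fun t => J e t - (exp ((t : ℂ) / 32 * e) / (e / 32 * t)).re - 32 / t
  have hd : ∀ t : ℝ, 0 < t → HasDerivAt H
      ((exp ((t : ℂ) / 32 * e) / (e / 32 * t ^ 2)).re + 32 / t ^ 2) t := by
    intro t ht
    have htc : (t : ℂ) ≠ 0 := ofReal_ne_zero.2 ht.ne'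
    have h1 : HasDerivAt (fun w : ℂ => exp (w / 32 * e) / (e / 32 * w))
        (exp ((t : ℂ) / 32 * e) / t - exp ((t : ℂ) / 32 * e) / (e / 32 * t ^ 2)) (t : ℂ) := by
      have h2 : HasDerivAt (fun w : ℂ => w / 32 * e) (1 / 32 * e) (t : ℂ) :=
        ((hasDerivAt_id _).div_const 32).mul_const e
      have h3 : HasDerivAt (fun w : ℂ => e / 32 * w) (e / 32 * 1) (t : ℂ) :=
        (hasDerivAt_id _).const_mul _
      have h4 := h2.cexp.div h3 (mul_ne_zero (div_ne_zero he0 (by norm_num)) htc)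
      refine h4.congr_deriv ?_
      field_simp
    have h5 := h1.comp_ofReal
    have h6 : HasDerivAt (fun t : ℝ => (exp ((t : ℂ) / 32 * e) / (e / 32 * t)).re)
        (exp ((t : ℂ) / 32 * e) / t - exp ((t : ℂ) / 32 * e) / (e / 32 * t ^ 2)).re t :=
      (Complex.reCLM.hasFDerivAt.comp_hasDerivAt t h5)
    have h7 : HasDerivAt (fun t : ℝ => 32 / t) (-(32 / t ^ 2)) t := by
      have := (hasDerivAt_inv ht.ne').const_mul (32 : ℝ)
      refine (this.congr_deriv ?_).congr_of_eventuallyEq (Eventually.of_forall fun s => ?_)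
      · field_simp
      · simp [div_eq_mul_inv]
    have h8 := ((hasDerivAt_J he0 ht).sub h6).sub h7
    refine h8.congr_deriv ?_
    rw [sub_re, div_ofReal_re]
    ring
  have hmono : MonotoneOn H (Icc 32 R) := by
    apply monotoneOn_of_deriv_nonneg (convex_Icc _ _)
    · intro t ht
      have ht0 : 0 < t := lt_of_lt_of_le (by norm_num) ht.1
      exact (hd t ht0).continuousAt.continuousWithinAt
    · intro t ht
      rw [interior_Icc] at ht
      have ht0 : 0 < t := lt_trans (by norm_num) ht.1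
      exact (hd t ht0).differentiableAt.differentiableWithinAt
    · intro t ht
      rw [interior_Icc] at ht
      have ht0 : 0 < t := lt_trans (by norm_num) ht.1
      rw [(hd t ht0).deriv]
      have h1 := abs_re_le_norm (exp ((t : ℂ) / 32 * e) / (e / 32 * t ^ 2))
      have h2 : ‖exp ((t : ℂ) / 32 * e) / (e / 32 * t ^ 2)‖ ≤ 32 / t ^ 2 := by
        rw [norm_div, norm_mul, norm_div, he, norm_pow, norm_real, Real.norm_eq_abs,
          abs_of_pos ht0]
        simp only [norm_ofNat]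
        have h3 := hexp t ht0
        rw [div_le_div_iff₀ (by positivity) (by positivity)]
        have : 0 < t ^ 2 := by positivity
        nlinarith
      have h3 := neg_le_of_abs_le (h1.trans h2)
      linarith
  have h1 := hmono (left_mem_Icc.2 hR) (right_mem_Icc.2 hR) hR
  have hbd : ∀ t : ℝ, 0 < t → |(exp ((t : ℂ) / 32 * e) / (e / 32 * t)).re| ≤ 32 / t := by
    intro t ht0
    refine (abs_re_le_norm _).trans ?_
    rw [norm_div, norm_mul, norm_div, he, norm_real, Real.norm_eq_abs, abs_of_pos ht0]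
    simp only [norm_ofNat]
    have h3 := hexp t ht0
    rw [div_le_div_iff₀ (by positivity) (by positivity)]
    nlinarith
  have h2 := hbd 32 (by norm_num)
  have hR0 : 0 < R := by linarith
  have h3 := hbd R hR0
  have h4 := neg_le_of_abs_le h3
  have h5 := le_of_abs_le h2
  simp only [H] at h1
  have h6 : (32 : ℝ) / 32 = 1 := by norm_num
  rw [h6] at h1 h5
  linarith

theorem J_ne {e : ℂ} (he : ‖e‖ = 1) (hre : e.re ≤ 0) {R : ℝ} (hR : 1 < R) :
    J e R⁻¹ < J e R := by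
  have hR0 : 0 < R := by linarith
  have hinv : R⁻¹ < 1 := inv_lt_one_of_one_lt₀ hR
  rcases le_total R 32 with h | h
  · exact J_mono_of he (inv_pos.2 hR0) (hinv.trans hR) h
  · have h1 := J_far he hre h
    have h2 := J_one he
    have h3 : J e 1 < J e 32 := J_mono_of he one_pos (by norm_num) le_rfl
    have h4 : J e R⁻¹ ≤ J e (1 / 32) := by
      rcases eq_or_lt_of_le h with h5 | h5
      · rw [← h5]
        norm_num
      · apply (J_mono_of he (inv_pos.2 hR0) _ (by norm_num)).le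
        rw [one_div]
        exact inv_strictAnti₀ (by norm_num) h5
    linarith

theorem inv_im_eq (z : ℂ) : (z - z⁻¹).im = z.im * (1 + (‖z‖ ^ 2)⁻¹) := by
  rw [sub_im, inv_im, ← normSq_eq_norm_sq]
  ring

theorem inv_re_eq (z : ℂ) : (z + z⁻¹).re = z.re * (1 + (‖z‖ ^ 2)⁻¹) := by
  rw [add_re, inv_re, ← normSq_eq_norm_sq]
  ring

/-- the planar part of the surface -/
theorem planar (z : ℂ) :
    (⟨X z 1, X z 2⟩ : ℂ) = z * ((1 + (‖z‖ ^ 2)⁻¹ : ℝ) : ℂ) := by
  apply Complex.ext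
  · show (z + z⁻¹).re = _
    rw [inv_re_eq z, mul_comm z, re_ofReal_mul]
    ring
  · show (z - z⁻¹).im = _
    rw [inv_im_eq z, mul_comm z, im_ofReal_mul]
    ring

theorem norm_planar {z : ℂ} (hz : z ≠ 0) :
    ‖(⟨X z 1, X z 2⟩ : ℂ)‖ = ‖z‖ + ‖z‖⁻¹ := by
  rw [planar z, norm_mul, norm_real, Real.norm_eq_abs, abs_of_pos (by positivity)]
  have : ‖z‖ ≠ 0 := by simpa using hz
  field_simp

/-- The null coordinates in terms of `J`. -/
theorem X_null {e : ℂ} (he : ‖e‖ = 1) {t : ℝ} (ht : 0 < t) :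
    X (t * e) 0 - X (t * e) 3 = J (e ^ 2) (t ^ 2) ∧
    X (t * e) 0 + X (t * e) 3 = -J (-e ^ 2) (t ^ 2) := by
  have h1 : ‖(t : ℂ) * e‖ = t := by
    rw [norm_mul, he, norm_real, Real.norm_eq_abs, abs_of_pos ht, mul_one]
  have h2 : q (t * e) = ((t ^ 2 : ℝ) : ℂ) / 32 * e ^ 2 := by
    unfold q
    push_cast
    ring
  have h3 : -q (t * e) = ((t ^ 2 : ℝ) : ℂ) / 32 * (-e ^ 2) := by
    rw [h2]
    ring
  constructor
  · simp only [X, Matrix.cons_val, J]
    rw [h1, h2, Real.log_pow]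
    push_cast
    ring
  · simp only [X, Matrix.cons_val, J]
    rw [h1, h3, Real.log_pow]
    push_cast
    ring

theorem X_ray_ne {e : ℂ} (he : ‖e‖ = 1) {r : ℝ} (hr : 1 < r) :
    X (r * e) ≠ X ((r⁻¹ : ℝ) * e) := by
  intro h
  have hr0 : 0 < r := by linarith
  have h1 := X_null he hr0
  have h2 := X_null he (inv_pos.2 hr0)
  have e1 : J (e ^ 2) (r ^ 2) = J (e ^ 2) (r ^ 2)⁻¹ := by
    rw [← h1.1, h, h2.1, inv_pow]
  have e2 : J (-e ^ 2) (r ^ 2) = J (-e ^ 2) (r ^ 2)⁻¹ := by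
    rw [← neg_inj, ← h1.2, h, h2.2, inv_pow]
  have hR : 1 < r ^ 2 := by nlinarith
  have hn : ‖e ^ 2‖ = 1 := by rw [norm_pow, he, one_pow]
  rcases le_total (e ^ 2).re 0 with h3 | h3
  · exact (J_ne hn h3 hR).ne' e1
  · refine (J_ne (e := -e ^ 2) (by rw [norm_neg, hn]) ?_ hR).ne' e2
    rw [neg_re]
    linarith

theorem injOn_X : InjOn X {0}ᶜ := by
  intro z hz w hw h
  have hz' : z ≠ 0 := hz
  have hw' : w ≠ 0 := hw
  have hzn : 0 < ‖z‖ := norm_pos_iff.2 hz'
  have hwn : 0 < ‖w‖ := norm_pos_iff.2 hw'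
  have hp : (⟨X z 1, X z 2⟩ : ℂ) = ⟨X w 1, X w 2⟩ := by rw [h]
  have hn := congrArg norm hp
  rw [norm_planar hz', norm_planar hw'] at hn
  rw [planar z, planar w] at hp
  -- the common direction
  set e : ℂ := z / ‖z‖ with hedef
  have hzc : ((‖z‖ : ℝ) : ℂ) ≠ 0 := ofReal_ne_zero.2 hzn.ne'
  have hwc : ((‖w‖ : ℝ) : ℂ) ≠ 0 := ofReal_ne_zero.2 hwn.ne'
  have he : ‖e‖ = 1 := by
    rw [hedef, norm_div, norm_real, norm_norm, div_self hzn.ne']
  have hze : z = (‖z‖ : ℂ) * e := by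
    rw [hedef]
    field_simp
  have hwe : w = (‖w‖ : ℂ) * e := by
    have h1 : (z / ‖z‖) * ((‖z‖ + ‖z‖⁻¹ : ℝ) : ℂ) = (w / ‖w‖) * ((‖w‖ + ‖w‖⁻¹ : ℝ) : ℂ) := by
      have e1 : (z / ‖z‖) * ((‖z‖ + ‖z‖⁻¹ : ℝ) : ℂ) = z * ((1 + (‖z‖ ^ 2)⁻¹ : ℝ) : ℂ) := by
        push_cast
        field_simp
      have e2 : (w / ‖w‖) * ((‖w‖ + ‖w‖⁻¹ : ℝ) : ℂ) = w * ((1 + (‖w‖ ^ 2)⁻¹ : ℝ) : ℂ) := by
        push_cast
        field_simp
      rw [e1, e2, hp]
    rw [← hn] at h1
    have h2 : ((‖z‖ + ‖z‖⁻¹ : ℝ) : ℂ) ≠ 0 := ofReal_ne_zero.2 (by positivity)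
    have h3 := mul_right_cancel₀ h2 h1
    rw [hedef, h3]
    field_simp
  -- the norms are equal or inverse
  have hcase : ‖z‖ = ‖w‖ ∨ ‖z‖ = ‖w‖⁻¹ := by
    have h1 : (‖z‖ - ‖w‖) * (‖z‖ * ‖w‖ - 1) = 0 := by
      field_simp at hn
      nlinarith
    rcases mul_eq_zero.1 h1 with h2 | h2
    · left; linarith
    · right
      rw [eq_comm, inv_eq_one_div, div_eq_iff hwn.ne']
      linarith
  rcases hcase with h1 | h1
  · rw [hze, hwe, h1]
  · rcases lt_trichotomy ‖w‖ 1 with h2 | h2 | h2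
    · exfalso
      have h3 : 1 < ‖z‖ := by
        rw [h1]
        exact (one_lt_inv₀ hwn).2 h2
      apply X_ray_ne he h3
      have h4 : ((‖z‖⁻¹ : ℝ) : ℂ) = (‖w‖ : ℂ) := by rw [h1, inv_inv]
      rw [h4, ← hze, ← hwe, h]
    · rw [hze, hwe, h1, h2]
      simp
    · exfalso
      apply X_ray_ne he h2
      have h4 : ((‖w‖⁻¹ : ℝ) : ℂ) = (‖z‖ : ℂ) := by rw [h1]
      rw [h4, ← hze, ← hwe, h]

/-! ### Properness -/

theorem isProperMap_X : IsProperMap (fun p : ({0}ᶜ : Set ℂ) => X p) := by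
  have hcont : Continuous (fun p : ({0}ᶜ : Set ℂ) => X p) :=
    contDiffOn_X.continuousOn.domRestrict
  rw [isProperMap_iff_isCompact_preimage]
  refine ⟨hcont, fun K hK => ?_⟩
  -- a bound for the planar part
  obtain ⟨R, hR⟩ : ∃ R : ℝ, ∀ y ∈ K, ‖(⟨y 1, y 2⟩ : ℂ)‖ ≤ R := by
    have hc : Continuous (fun y : Fin 4 → ℝ => ‖(⟨y 1, y 2⟩ : ℂ)‖) := by
      have : (fun y : Fin 4 → ℝ => ‖(⟨y 1, y 2⟩ : ℂ)‖) =
          fun y : Fin 4 → ℝ => ‖(y 1 : ℂ) + y 2 * I‖ := by
        ext y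
        rw [← mk_eq_add_mul_I]
      rw [this]
      fun_prop
    obtain ⟨R, hR⟩ := (hK.image hc).bddAbove
    exact ⟨R, fun y hy => hR ⟨y, hy, rfl⟩⟩
  set C : Set ℂ := {z | ‖z‖ ≤ R ∧ 1 ≤ R * ‖z‖} with hC
  have hCc : IsCompact C := by
    apply (isCompact_closedBall (0 : ℂ) R).of_isClosed_subset
    · exact (isClosed_le continuous_norm continuous_const).inter
        (isClosed_le continuous_const (continuous_const.mul continuous_norm))
    · intro z hz
      simpa using hz.1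
  have hC0 : C ⊆ {0}ᶜ := by
    rintro z ⟨_, hz⟩ rfl
    simp at hz
    linarith
  have hsub : (fun p : ({0}ᶜ : Set ℂ) => X p) ⁻¹' K ⊆ (Subtype.val : ({0}ᶜ : Set ℂ) → ℂ) ⁻¹' C := by
    intro p hp
    have hp0 : (p : ℂ) ≠ 0 := p.2
    have h1 := hR _ hp
    rw [norm_planar hp0] at h1
    have hpn : 0 < ‖(p : ℂ)‖ := norm_pos_iff.2 hp0
    have hpi : 0 < ‖(p : ℂ)‖⁻¹ := inv_pos.2 hpn
    refine ⟨by linarith, ?_⟩
    have h2 : ‖(p : ℂ)‖⁻¹ ≤ R := by linarith
    calc (1 : ℝ) = ‖(p : ℂ)‖⁻¹ * ‖(p : ℂ)‖ := (inv_mul_cancel₀ hpn.ne').symm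
      _ ≤ R * ‖(p : ℂ)‖ := mul_le_mul_of_nonneg_right h2 hpn.le
  have hcomp : IsCompact ((Subtype.val : ({0}ᶜ : Set ℂ) → ℂ) ⁻¹' C) := by
    rw [Subtype.isCompact_iff, Subtype.image_preimage_coe, inter_eq_self_of_subset_right hC0]
    exact hCc
  exact hcomp.of_isClosed_subset (hK.isClosed.preimage hcont) hsub

/-! ### Completeness -/

theorem continuousOn_lam : ContinuousOn lam {0}ᶜ := by
  have h : ContinuousOn (fun z : ℂ => (z.re ^ 2 + z.im ^ 2)⁻¹) {0}ᶜ := by
    apply ContinuousOn.inv₀ (by fun_prop)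
    intro z hz
    exact (normSq_pos' hz).ne'
  unfold lam
  exact (continuousOn_const.add (h.pow 2)).add ((continuousOn_const.mul h).mul
    (by fun_prop))

theorem sqrt_metric {z : ℂ} (hz : z ≠ 0) (v : ℂ) :
    √(inducedMetric X z v v) = √(lam z) * ‖v‖ := by
  rw [metric_X hz, Real.sqrt_mul (lam_pos hz).le]
  congr 1

theorem sqrt_lam_lower {z : ℂ} (hz : z ≠ 0) : (1 + (‖z‖ ^ 2)⁻¹) / 2 ≤ √(lam z) := by
  have h := lam_lower hz
  have hN : z.re ^ 2 + z.im ^ 2 = ‖z‖ ^ 2 := by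
    rw [← normSq_eq_norm_sq, normSq_apply]
    ring
  rw [hN] at h
  apply Real.le_sqrt_of_sq_le
  nlinarith [sq_nonneg (1 + (‖z‖ ^ 2)⁻¹)]

theorem sqrt_lam_upper {z : ℂ} (hz : z ≠ 0) : √(lam z) ≤ 1 + (‖z‖ ^ 2)⁻¹ := by
  have hN : z.re ^ 2 + z.im ^ 2 = ‖z‖ ^ 2 := by
    rw [← normSq_eq_norm_sq, normSq_apply]
    ring
  have hn : 0 < ‖z‖ := norm_pos_iff.2 hz
  have hi : 0 < (‖z‖ ^ 2)⁻¹ := by positivity
  apply Real.sqrt_le_iff.2
  refine ⟨by positivity, ?_⟩
  unfold lam
  rw [hN]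
  have := Real.cos_le_one (z.re * z.im / 8)
  nlinarith

theorem curveLength_eq {γ : ℝ → ℂ} (hU : ∀ t ∈ Icc (0 : ℝ) 1, γ t ∈ ({0}ᶜ : Set ℂ)) :
    curveLength X γ = ∫ t in (0 : ℝ)..1, √(lam (γ t)) * ‖deriv γ t‖ := by
  unfold curveLength
  apply intervalIntegral.integral_congr
  intro t ht
  rw [uIcc_of_le zero_le_one] at ht
  exact sqrt_metric (hU t ht) _

theorem continuousOn_integrand {γ : ℝ → ℂ} (hγ : ContDiff ℝ 1 γ)
    (hU : ∀ t ∈ Icc (0 : ℝ) 1, γ t ∈ ({0}ᶜ : Set ℂ)) :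
    ContinuousOn (fun t => √(lam (γ t)) * ‖deriv γ t‖) (Icc 0 1) := by
  have h1 : ContinuousOn (fun t => lam (γ t)) (Icc 0 1) :=
    continuousOn_lam.comp hγ.continuous.continuousOn hU
  exact (h1.sqrt).mul (hγ.continuous_deriv le_rfl).norm.continuousOn

theorem length_lower {γ : ℝ → ℂ} (hγ : ContDiff ℝ 1 γ)
    (hU : ∀ t ∈ Icc (0 : ℝ) 1, γ t ∈ ({0}ᶜ : Set ℂ)) :
    ‖γ 1 - γ 0‖ / 2 ≤ curveLength X γ := by
  have hd : Continuous (deriv γ) := hγ.continuous_deriv le_rfl
  have h1 : ∫ t in (0 : ℝ)..1, deriv γ t = γ 1 - γ 0 :=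
    intervalIntegral.integral_deriv_eq_sub (fun t _ => (hγ.differentiable (by simp)) t)
      (hd.intervalIntegrable _ _)
  rw [← h1, curveLength_eq hU]
  have h2 := intervalIntegral.norm_integral_le_integral_norm (μ := volume) (f := deriv γ)
    (zero_le_one (α := ℝ))
  calc ‖∫ t in (0 : ℝ)..1, deriv γ t‖ / 2 ≤ (∫ t in (0 : ℝ)..1, ‖deriv γ t‖) / 2 := by linarith
    _ = ∫ t in (0 : ℝ)..1, ‖deriv γ t‖ / 2 := by rw [intervalIntegral.integral_div]
    _ ≤ _ := by
        apply intervalIntegral.integral_mono_on zero_le_one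
        · exact (hd.norm.div_const 2).intervalIntegrable _ _
        · apply ContinuousOn.intervalIntegrable
          rw [uIcc_of_le zero_le_one]
          exact continuousOn_integrand hγ hU
        · intro t ht
          have h3 := sqrt_lam_lower (hU t ht)
          have h4 : 0 ≤ (‖γ t‖ ^ 2)⁻¹ := by positivity
          have h5 := norm_nonneg (deriv γ t)
          nlinarith

theorem length_lower_inv {γ : ℝ → ℂ} (hγ : ContDiff ℝ 1 γ)
    (hU : ∀ t ∈ Icc (0 : ℝ) 1, γ t ∈ ({0}ᶜ : Set ℂ)) :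
    ‖(γ 1)⁻¹ - (γ 0)⁻¹‖ / 2 ≤ curveLength X γ := by
  have hd : Continuous (deriv γ) := hγ.continuous_deriv le_rfl
  have hcont : ContinuousOn (fun t => -deriv γ t / γ t ^ 2) (Icc 0 1) := by
    apply ContinuousOn.div hd.neg.continuousOn (hγ.continuous.pow 2).continuousOn
    intro t ht
    exact pow_ne_zero 2 (hU t ht)
  have h1 : ∫ t in (0 : ℝ)..1, -deriv γ t / γ t ^ 2 = (γ 1)⁻¹ - (γ 0)⁻¹ := by
    apply intervalIntegral.integral_eq_sub_of_hasDerivAt (f := fun t => (γ t)⁻¹)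
    · intro t ht
      rw [uIcc_of_le zero_le_one] at ht
      exact ((hγ.differentiable (by simp)) t).hasDerivAt.fun_inv (hU t ht)
    · apply ContinuousOn.intervalIntegrable
      rw [uIcc_of_le zero_le_one]
      exact hcont
  rw [← h1, curveLength_eq hU]
  have h2 := intervalIntegral.norm_integral_le_integral_norm (μ := volume)
    (f := fun t => -deriv γ t / γ t ^ 2) (zero_le_one (α := ℝ))
  calc ‖∫ t in (0 : ℝ)..1, -deriv γ t / γ t ^ 2‖ / 2 ≤
        (∫ t in (0 : ℝ)..1, ‖-deriv γ t / γ t ^ 2‖) / 2 := by linarith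
    _ = ∫ t in (0 : ℝ)..1, ‖-deriv γ t / γ t ^ 2‖ / 2 := by rw [intervalIntegral.integral_div]
    _ ≤ _ := by
        apply intervalIntegral.integral_mono_on zero_le_one
        · apply ContinuousOn.intervalIntegrable
          rw [uIcc_of_le zero_le_one]
          exact hcont.norm.div_const 2
        · apply ContinuousOn.intervalIntegrable
          rw [uIcc_of_le zero_le_one]
          exact continuousOn_integrand hγ hU
        · intro t ht
          have h3 := sqrt_lam_lower (hU t ht)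
          have h5 := norm_nonneg (deriv γ t)
          have h6 : ‖-deriv γ t / γ t ^ 2‖ = ‖deriv γ t‖ * (‖γ t‖ ^ 2)⁻¹ := by
            rw [norm_div, norm_neg, norm_pow, div_eq_mul_inv]
          rw [h6]
          nlinarith

theorem dist_lower {p r : ℂ} : ENNReal.ofReal (‖r - p‖ / 2) ≤ inducedDist X {0}ᶜ p r := by
  unfold inducedDist
  refine le_iInf fun γ => le_iInf fun hγ => le_iInf fun h0 => le_iInf fun h1 => le_iInf fun hU => ?_
  apply ENNReal.ofReal_le_ofReal
  have := length_lower hγ hU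
  rwa [h0, h1] at this

theorem dist_lower_inv {p r : ℂ} :
    ENNReal.ofReal (‖r⁻¹ - p⁻¹‖ / 2) ≤ inducedDist X {0}ᶜ p r := by
  unfold inducedDist
  refine le_iInf fun γ => le_iInf fun hγ => le_iInf fun h0 => le_iInf fun h1 => le_iInf fun hU => ?_
  apply ENNReal.ofReal_le_ofReal
  have := length_lower_inv hγ hU
  rwa [h0, h1] at this

theorem dist_upper {p r : ℂ} (hp : p ≠ 0) (hr : ‖r - p‖ ≤ ‖p‖ / 2) :
    inducedDist X {0}ᶜ r p ≤ ENNReal.ofReal ((1 + ((‖p‖ / 2) ^ 2)⁻¹) * ‖r - p‖) := by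
  have hpn : 0 < ‖p‖ := norm_pos_iff.2 hp
  let γ : ℝ → ℂ := fun t => r + t • (p - r)
  have hγ : ContDiff ℝ 1 γ := by
    exact contDiff_const.add (contDiff_id.smul contDiff_const)
  have hnorm : ∀ t ∈ Icc (0 : ℝ) 1, ‖p‖ / 2 ≤ ‖γ t‖ := by
    intro t ht
    have h1 : γ t = p + (1 - t) • (r - p) := by
      simp only [γ, real_smul]
      push_cast
      ring
    have h2 : ‖(1 - t) • (r - p)‖ ≤ ‖p‖ / 2 := by
      rw [norm_smul, Real.norm_eq_abs, abs_of_nonneg (by linarith [ht.2])]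
      have := norm_nonneg (r - p)
      nlinarith [ht.1, ht.2]
    have h3 := norm_sub_le_norm_add p ((1 - t) • (r - p))
    rw [h1]
    linarith
  have hU : ∀ t ∈ Icc (0 : ℝ) 1, γ t ∈ ({0}ᶜ : Set ℂ) := by
    intro t ht h0
    have := hnorm t ht
    rw [show γ t = 0 from h0, norm_zero] at this
    linarith
  have hlen : curveLength X γ ≤ (1 + ((‖p‖ / 2) ^ 2)⁻¹) * ‖r - p‖ := by
    rw [curveLength_eq hU]
    have hderiv : ∀ t, deriv γ t = p - r := by
      intro t
      have h1 : HasDerivAt γ ((1 : ℝ) • (p - r)) t :=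
        ((hasDerivAt_id t).smul_const (p - r)).const_add r
      rw [h1.deriv, one_smul]
    calc ∫ t in (0 : ℝ)..1, √(lam (γ t)) * ‖deriv γ t‖
        ≤ ∫ _t in (0 : ℝ)..1, (1 + ((‖p‖ / 2) ^ 2)⁻¹) * ‖r - p‖ := by
          apply intervalIntegral.integral_mono_on zero_le_one
          · apply ContinuousOn.intervalIntegrable
            rw [uIcc_of_le zero_le_one]
            exact continuousOn_integrand hγ hU
          · exact intervalIntegrable_const
          · intro t ht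
            rw [hderiv, norm_sub_rev p r]
            apply mul_le_mul_of_nonneg_right _ (norm_nonneg _)
            refine (sqrt_lam_upper (hU t ht)).trans ?_
            have h1 := hnorm t ht
            have h2 : ((‖γ t‖) ^ 2)⁻¹ ≤ ((‖p‖ / 2) ^ 2)⁻¹ := by
              apply inv_anti₀ (by positivity)
              exact pow_le_pow_left₀ (by positivity) h1 2
            linarith
      _ = _ := by simp
  unfold inducedDist
  refine (iInf_le _ γ).trans ((iInf_le _ hγ).trans ((iInf_le _ ?_).trans ((iInf_le _ ?_).trans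
    ((iInf_le _ hU).trans (ENNReal.ofReal_le_ofReal hlen)))))
  · simp [γ]
  · simp [γ]

theorem cauchy_of {s f : ℕ → ℂ} (hs : ∀ m n, ENNReal.ofReal (‖f n - f m‖ / 2) ≤
      inducedDist X {0}ᶜ (s m) (s n))
    (hc : ∀ ε : ℝ≥0∞, 0 < ε → ∃ N, ∀ m ≥ N, ∀ n ≥ N, inducedDist X {0}ᶜ (s m) (s n) < ε) :
    CauchySeq f := by
  rw [Metric.cauchySeq_iff]
  intro ε hε
  obtain ⟨N, hN⟩ := hc (ENNReal.ofReal (ε / 2)) (ENNReal.ofReal_pos.2 (by positivity))
  refine ⟨N, fun m hm n hn => ?_⟩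
  have h1 := (hs m n).trans_lt (hN m hm n hn)
  rw [ENNReal.ofReal_lt_ofReal_iff (by positivity)] at h1
  rw [dist_comm, dist_eq_norm]
  linarith

theorem complete_X : IsCompleteOn X {0}ᶜ := by
  intro s hs hc
  have h1 : CauchySeq s := cauchy_of (s := s) (f := s) (fun m n => dist_lower) hc
  have h2 : CauchySeq (fun n => (s n)⁻¹) :=
    cauchy_of (s := s) (f := fun n => (s n)⁻¹) (fun m n => dist_lower_inv) hc
  obtain ⟨p, hp⟩ := cauchySeq_tendsto_of_complete h1
  obtain ⟨w, hw⟩ := cauchySeq_tendsto_of_complete h2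
  have hpw : p * w = 1 := by
    have h3 := hp.mul hw
    have h4 : (fun n => s n * (s n)⁻¹) = fun _ => (1 : ℂ) := by
      ext n
      exact mul_inv_cancel₀ (hs n)
    rw [h4] at h3
    exact tendsto_nhds_unique h3 tendsto_const_nhds
  have hp0 : p ≠ 0 := left_ne_zero_of_mul_eq_one hpw
  refine ⟨p, hp0, ?_⟩
  have hpn : 0 < ‖p‖ := norm_pos_iff.2 hp0
  have h5 : Tendsto (fun n => ‖s n - p‖) atTop (𝓝 0) := tendsto_iff_norm_sub_tendsto_zero.1 hp
  have h6 : Tendsto (fun n => ENNReal.ofReal ((1 + ((‖p‖ / 2) ^ 2)⁻¹) * ‖s n - p‖)) atTop (𝓝 0) := by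
    have h7 := ENNReal.tendsto_ofReal (h5.const_mul (1 + ((‖p‖ / 2) ^ 2)⁻¹))
    rw [mul_zero, ENNReal.ofReal_zero] at h7
    exact h7
  refine tendsto_of_tendsto_of_tendsto_of_le_of_le' tendsto_const_nhds h6
    (Eventually.of_forall fun n => bot_le) ?_
  filter_upwards [h5.eventually (ge_mem_nhds (half_pos hpn))] with n hn
  exact dist_upper hp0 hn

/-! ### Curvature -/

def gg (x y : ℝ) : ℝ :=
  1 + (x ^ 2 + y ^ 2)⁻¹ ^ 2 + 2 * (x ^ 2 + y ^ 2)⁻¹ * Real.cos (x * y / 8)

def gx (x y : ℝ) : ℝ :=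
  -4 * x * (x ^ 2 + y ^ 2)⁻¹ ^ 3 - 4 * x * (x ^ 2 + y ^ 2)⁻¹ ^ 2 * Real.cos (x * y / 8) -
    y / 4 * (x ^ 2 + y ^ 2)⁻¹ * Real.sin (x * y / 8)

def gxx (x y : ℝ) : ℝ :=
  -4 * (x ^ 2 + y ^ 2)⁻¹ ^ 3 + 24 * x ^ 2 * (x ^ 2 + y ^ 2)⁻¹ ^ 4 -
    4 * (x ^ 2 + y ^ 2)⁻¹ ^ 2 * Real.cos (x * y / 8) +
    16 * x ^ 2 * (x ^ 2 + y ^ 2)⁻¹ ^ 3 * Real.cos (x * y / 8) +
    x * y * (x ^ 2 + y ^ 2)⁻¹ ^ 2 * Real.sin (x * y / 8) -
    y ^ 2 / 32 * (x ^ 2 + y ^ 2)⁻¹ * Real.cos (x * y / 8)

theorem hasDerivAt_N {x y : ℝ} (h : x ^ 2 + y ^ 2 ≠ 0) :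
    HasDerivAt (fun x => (x ^ 2 + y ^ 2)⁻¹) (-2 * x * (x ^ 2 + y ^ 2)⁻¹ ^ 2) x := by
  have h1 : HasDerivAt (fun x : ℝ => x ^ 2 + y ^ 2) (2 * x) x := by
    have := ((hasDerivAt_id x).pow 2).add_const (y ^ 2)
    simpa using this
  refine (h1.inv h).congr_deriv ?_
  field_simp

theorem hasDerivAt_cos (x y : ℝ) :
    HasDerivAt (fun x => Real.cos (x * y / 8)) (-(y / 8) * Real.sin (x * y / 8)) x := by
  have h1 : HasDerivAt (fun x : ℝ => x * y / 8) (y / 8) x := by
    have := ((hasDerivAt_id x).mul_const y).div_const 8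
    simpa using this
  refine h1.cos.congr_deriv ?_
  ring

theorem hasDerivAt_sin (x y : ℝ) :
    HasDerivAt (fun x => Real.sin (x * y / 8)) (y / 8 * Real.cos (x * y / 8)) x := by
  have h1 : HasDerivAt (fun x : ℝ => x * y / 8) (y / 8) x := by
    have := ((hasDerivAt_id x).mul_const y).div_const 8
    simpa using this
  refine h1.sin.congr_deriv ?_
  ring

theorem hasDerivAt_gg {x y : ℝ} (h : x ^ 2 + y ^ 2 ≠ 0) :
    HasDerivAt (fun x => gg x y) (gx x y) x := by
  have hN := hasDerivAt_N h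
  have hc := hasDerivAt_cos x y
  have h1 := ((hN.pow 2).const_add 1).add ((hN.const_mul 2).mul hc)
  refine h1.congr_deriv ?_
  unfold gx
  push_cast
  ring

theorem hasDerivAt_gx {x y : ℝ} (h : x ^ 2 + y ^ 2 ≠ 0) :
    HasDerivAt (fun x => gx x y) (gxx x y) x := by
  have hN := hasDerivAt_N h
  have hc := hasDerivAt_cos x y
  have hs := hasDerivAt_sin x y
  have hx := (hasDerivAt_id' x)
  have h1 := ((((hx.const_mul (-4)).mul (hN.pow 3)).sub
    (((hx.const_mul 4).mul (hN.pow 2)).mul hc))).sub ((hN.const_mul (y / 4)).mul hs)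
  refine h1.congr_deriv ?_
  unfold gxx
  simp only [Pi.pow_apply, Pi.mul_apply]
  push_cast
  ring

theorem lam_eq (z : ℂ) : lam z = gg z.re z.im := rfl

theorem lam_eq' (z : ℂ) : lam z = gg z.im z.re := by
  rw [lam_eq]
  unfold gg
  rw [add_comm (z.re ^ 2), mul_comm z.re]

theorem dx_of {f : ℂ → ℝ} {h : ℝ → ℝ → ℝ} {h' : ℝ} {z : ℂ} (hf : ∀ w, f w = h w.re w.im)
    (hh : HasDerivAt (fun x => h x z.im) h' z.re) : dx f z = h' := by
  unfold dx
  apply HasLineDerivAt.lineDeriv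
  unfold HasLineDerivAt
  have h1 : (fun t : ℝ => f (z + t • (1 : ℂ))) = fun t : ℝ => h (z.re + t) z.im := by
    ext t
    rw [hf]
    simp
  rw [h1]
  have h2 : HasDerivAt (fun t : ℝ => z.re + t) 1 0 := (hasDerivAt_id' (0 : ℝ)).const_add _
  have h3 : HasDerivAt (fun x => h x z.im) h' (z.re + 0) := by rwa [add_zero]
  have h4 := HasDerivAt.comp (h := fun t : ℝ => z.re + t) (0 : ℝ) h3 h2
  simpa [Function.comp_def] using h4

theorem dy_of {f : ℂ → ℝ} {h : ℝ → ℝ → ℝ} {h' : ℝ} {z : ℂ} (hf : ∀ w, f w = h w.im w.re)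
    (hh : HasDerivAt (fun x => h x z.re) h' z.im) : dy f z = h' := by
  unfold dy
  apply HasLineDerivAt.lineDeriv
  unfold HasLineDerivAt
  have h1 : (fun t : ℝ => f (z + t • I)) = fun t : ℝ => h (z.im + t) z.re := by
    ext t
    rw [hf]
    simp
  rw [h1]
  have h2 : HasDerivAt (fun t : ℝ => z.im + t) 1 0 := (hasDerivAt_id' (0 : ℝ)).const_add _
  have h3 : HasDerivAt (fun x => h x z.re) h' (z.im + 0) := by rwa [add_zero]
  have h4 := HasDerivAt.comp (h := fun t : ℝ => z.im + t) (0 : ℝ) h3 h2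
  simpa [Function.comp_def] using h4

theorem dx_congr {f g : ℂ → ℝ} {z : ℂ} (h : f =ᶠ[𝓝 z] g) : dx f z = dx g z := h.lineDeriv_eq

theorem dy_congr {f g : ℂ → ℝ} {z : ℂ} (h : f =ᶠ[𝓝 z] g) : dy f z = dy g z := h.lineDeriv_eq

theorem ne_zero_of {z : ℂ} (hz : z ≠ 0) : z.re ^ 2 + z.im ^ 2 ≠ 0 := (normSq_pos' hz).ne'

theorem dx_lam {z : ℂ} (hz : z ≠ 0) : dx lam z = gx z.re z.im :=
  dx_of lam_eq (hasDerivAt_gg (ne_zero_of hz))

theorem dy_lam {z : ℂ} (hz : z ≠ 0) : dy lam z = gx z.im z.re :=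
  dy_of lam_eq' (hasDerivAt_gg (by rw [add_comm]; exact ne_zero_of hz))

theorem dxx_lam {z : ℂ} (hz : z ≠ 0) : dx (dx lam) z = gxx z.re z.im := by
  have h1 : dx lam =ᶠ[𝓝 z] fun w => gx w.re w.im := by
    filter_upwards [isOpen_ne.mem_nhds hz] with w hw
    exact dx_lam hw
  rw [dx_congr h1]
  exact dx_of (fun _ => rfl) (hasDerivAt_gx (ne_zero_of hz))

theorem dyy_lam {z : ℂ} (hz : z ≠ 0) : dy (dy lam) z = gxx z.im z.re := by
  have h1 : dy lam =ᶠ[𝓝 z] fun w => gx w.im w.re := by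
    filter_upwards [isOpen_ne.mem_nhds hz] with w hw
    exact dy_lam hw
  rw [dy_congr h1]
  exact dy_of (h := gx) (fun _ => rfl) (hasDerivAt_gx (by rw [add_comm]; exact ne_zero_of hz))

theorem cE_X {z : ℂ} (hz : z ≠ 0) : cE X z = lam z := by
  unfold cE; rw [metric_X hz]; simp

theorem cF_X {z : ℂ} (hz : z ≠ 0) : cF X z = 0 := by
  unfold cF; rw [metric_X hz]; simp

theorem cG_X {z : ℂ} (hz : z ≠ 0) : cG X z = lam z := by
  unfold cG; rw [metric_X hz]; simp

theorem cE_ev {z : ℂ} (hz : z ≠ 0) : cE X =ᶠ[𝓝 z] lam := by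
  filter_upwards [isOpen_ne.mem_nhds hz] with w hw using cE_X hw

theorem cG_ev {z : ℂ} (hz : z ≠ 0) : cG X =ᶠ[𝓝 z] lam := by
  filter_upwards [isOpen_ne.mem_nhds hz] with w hw using cG_X hw

theorem cF_ev {z : ℂ} (hz : z ≠ 0) : cF X =ᶠ[𝓝 z] fun _ => 0 := by
  filter_upwards [isOpen_ne.mem_nhds hz] with w hw using cF_X hw

theorem dx_zero (z : ℂ) : dx (fun _ => 0) z = 0 := by simp [dx, lineDeriv]

theorem dy_zero (z : ℂ) : dy (fun _ => 0) z = 0 := by simp [dy, lineDeriv]

theorem curvature_X {z : ℂ} (hz : z ≠ 0) :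
    gaussCurvature X z * (2 * lam z ^ 3) =
      (gx z.re z.im ^ 2 + gx z.im z.re ^ 2) - lam z * (gxx z.re z.im + gxx z.im z.re) := by
  have e1 : dy (dy (cE X)) z = gxx z.im z.re := by
    have : dy (cE X) =ᶠ[𝓝 z] dy lam := by
      filter_upwards [isOpen_ne.mem_nhds hz] with w hw using dy_congr (cE_ev hw)
    rw [dy_congr this, dyy_lam hz]
  have e2 : dx (dx (cG X)) z = gxx z.re z.im := by
    have : dx (cG X) =ᶠ[𝓝 z] dx lam := by
      filter_upwards [isOpen_ne.mem_nhds hz] with w hw using dx_congr (cG_ev hw)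
    rw [dx_congr this, dxx_lam hz]
  have e3 : dy (dx (cF X)) z = 0 := by
    have : dx (cF X) =ᶠ[𝓝 z] fun _ => 0 := by
      filter_upwards [isOpen_ne.mem_nhds hz] with w hw
      rw [dx_congr (cF_ev hw), dx_zero]
    rw [dy_congr this, dy_zero]
  have e4 : dx (cE X) z = gx z.re z.im := by rw [dx_congr (cE_ev hz), dx_lam hz]
  have e5 : dy (cE X) z = gx z.im z.re := by rw [dy_congr (cE_ev hz), dy_lam hz]
  have e6 : dx (cG X) z = gx z.re z.im := by rw [dx_congr (cG_ev hz), dx_lam hz]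
  have e7 : dy (cG X) z = gx z.im z.re := by rw [dy_congr (cG_ev hz), dy_lam hz]
  have e8 : dx (cF X) z = 0 := by rw [dx_congr (cF_ev hz), dx_zero]
  have e9 : dy (cF X) z = 0 := by rw [dy_congr (cF_ev hz), dy_zero]
  have hl := (lam_pos hz).ne'
  unfold gaussCurvature
  rw [e1, e2, e3, e4, e5, e6, e7, e8, e9, cE_X hz, cF_X hz, cG_X hz, Matrix.det_fin_three,
    Matrix.det_fin_three]
  simp only [Matrix.of_apply, Matrix.cons_val', Matrix.cons_val_zero, Matrix.cons_val_one,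
    Matrix.cons_val, Matrix.cons_val_fin_one]
  field_simp
  ring

theorem areaDensity_X {z : ℂ} (hz : z ≠ 0) : areaDensity X z = lam z := by
  unfold areaDensity
  rw [cE_X hz, cF_X hz, cG_X hz]
  have : lam z * lam z - 0 ^ 2 = lam z ^ 2 := by ring
  rw [this, Real.sqrt_sq (lam_pos hz).le]

theorem curvature_lower {z : ℂ} (hx : 10 < z.re) (hy : 0 < z.im) (hxy : z.im < 8 / z.re) :
    1 / 1024 ≤ |gaussCurvature X z| * areaDensity X z := by
  have hx0 : 0 < z.re := by linarith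
  have hz : z ≠ 0 := by
    rintro rfl
    simp at hx0
  have hl := lam_pos hz
  have hK := curvature_X hz
  rw [areaDensity_X hz]
  have hxy' : z.re * z.im < 8 := by
    rw [lt_div_iff₀ hx0] at hxy
    linarith
  have hxy0 : 0 < z.re * z.im := mul_pos hx0 hy
  set x := z.re with hxdef
  set y := z.im with hydef
  set c := Real.cos (x * y / 8) with hc
  set σ := Real.sin (x * y / 8) with hσ
  set M := (x ^ 2 + y ^ 2)⁻¹ with hM
  have hN : 100 ≤ x ^ 2 + y ^ 2 := by nlinarith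
  have hM0 : 0 < M := inv_pos.2 (by linarith)
  have hM1 : M ≤ 1 / 100 := by
    rw [hM, inv_le_comm₀ (by linarith) (by norm_num)]
    simpa using hN
  have hMN : (x ^ 2 + y ^ 2) * M = 1 := mul_inv_cancel₀ (by linarith)
  have hc1 : 1 / 2 ≤ c := by
    have := Real.one_sub_sq_div_two_le_cos (x := x * y / 8)
    have h1 : (x * y / 8) ^ 2 ≤ 1 := by nlinarith
    linarith
  have hc2 : c ≤ 1 := Real.cos_le_one _
  have hσ1 : |σ| ≤ 1 := Real.abs_sin_le_one _
  have hσ2 := (abs_le.1 hσ1).2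
  have hlap : gxx x y + gxx y x = 16 * M ^ 3 + 8 * M ^ 2 * c + 2 * (x * y) * M ^ 2 * σ - c / 32 := by
    unfold gxx
    rw [add_comm (y ^ 2) (x ^ 2), mul_comm y x, ← hM, ← hc, ← hσ]
    linear_combination (24 * M ^ 3 + 16 * M ^ 2 * c - c / 32) * hMN
  have hM2 : M ^ 2 ≤ 1 / 10000 := by nlinarith
  have hM3 : M ^ 3 ≤ 1 / 1000000 := by
    calc M ^ 3 = M ^ 2 * M := by ring
      _ ≤ 1 / 10000 * (1 / 100) := mul_le_mul hM2 hM1 hM0.le (by norm_num)
      _ = _ := by norm_num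
  have hM2' : 0 < M ^ 2 := by positivity
  have h1 : 8 * M ^ 2 * c ≤ 8 / 10000 := by nlinarith
  have h2 : 2 * (x * y) * M ^ 2 * σ ≤ 16 / 10000 := by
    have h3 : 2 * (x * y) * M ^ 2 ≤ 16 / 10000 := by nlinarith
    have h4 : 0 ≤ 2 * (x * y) * M ^ 2 := by positivity
    nlinarith
  have hlap2 : gxx x y + gxx y x ≤ -(1 / 128) := by
    rw [hlap]
    linarith
  have hlam4 : lam z ≤ 4 := by
    have : lam z = 1 + M ^ 2 + 2 * M * c := rfl
    rw [this]
    nlinarith
  have hpos : lam z / 128 ≤ gaussCurvature X z * (2 * lam z ^ 3) := by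
    rw [hK]
    have h3 : lam z * (gxx x y + gxx y x) ≤ lam z * (-(1 / 128)) :=
      mul_le_mul_of_nonneg_left hlap2 hl.le
    have h4 := sq_nonneg (gx x y)
    have h5 := sq_nonneg (gx y x)
    linarith
  have hK0 : 0 < gaussCurvature X z := by
    by_contra h
    push Not at h
    have h3 : 0 < 2 * lam z ^ 3 := by positivity
    have h4 := mul_nonpos_of_nonpos_of_nonneg h h3.le
    linarith
  rw [abs_of_pos hK0]
  have h5 : 1 / 128 ≤ gaussCurvature X z * lam z * (2 * lam z) := by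
    have h6 : lam z * (1 / 128) ≤ lam z * (gaussCurvature X z * lam z * (2 * lam z)) := by
      calc lam z * (1 / 128) = lam z / 128 := by ring
        _ ≤ gaussCurvature X z * (2 * lam z ^ 3) := hpos
        _ = _ := by ring
    exact le_of_mul_le_mul_left h6 hl
  have h7 : 0 < gaussCurvature X z * lam z := mul_pos hK0 hl
  have h8 : gaussCurvature X z * lam z * (2 * lam z) ≤ gaussCurvature X z * lam z * 8 :=
    mul_le_mul_of_nonneg_left (by linarith) h7.le
  linarith

/-- the region over which the curvature is bounded below -/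
def D : Set ℂ := {z | 10 < z.re ∧ 0 < z.im ∧ z.im < 8 / z.re}

theorem D_eq : D = measurableEquivRealProd ⁻¹'
    (regionBetween (fun _ => 0) (fun x => 8 / x) (Ioi 10)) := by
  ext z
  simp only [D, regionBetween, mem_ofPred_eq, mem_preimage, measurableEquivRealProd_apply, mem_Ioi,
    mem_Ioo]

theorem volume_D : volume D = ⊤ := by
  rw [D_eq, volume_preserving_equiv_real_prod.measure_preimage_equiv, Measure.volume_eq_prod,
    volume_regionBetween_eq_lintegral (f := fun _ => 0) (g := fun x : ℝ => 8 / x)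
      aemeasurable_const ((measurable_const.div measurable_id).aemeasurable) measurableSet_Ioi]
  by_contra h
  have h1 : IntegrableOn (fun x : ℝ => 8 / x) (Ioi 10) := by
    refine ⟨(measurable_const.div measurable_id).aestronglyMeasurable, ?_⟩
    rw [hasFiniteIntegral_iff_norm]
    refine lt_of_eq_of_lt ?_ (lt_top_iff_ne_top.2 h)
    apply setLIntegral_congr_fun measurableSet_Ioi
    intro x hx
    have hx0 : (0 : ℝ) < x := lt_trans (by norm_num) hx
    simp only [Pi.sub_apply, sub_zero]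
    rw [Real.norm_eq_abs, abs_of_pos (by positivity)]
  apply not_integrableOn_Ioi_inv (a := 10)
  have h2 : IntegrableOn (fun x : ℝ => 1 / 8 * (8 / x)) (Ioi 10) := h1.const_mul (1 / 8)
  refine IntegrableOn.congr_fun h2 (fun x _ => ?_) measurableSet_Ioi
  simp only [div_eq_mul_inv]
  ring

theorem totalCurvature_X : totalAbsCurvature X {0}ᶜ = ⊤ := by
  unfold totalAbsCurvature
  have hsub : D ⊆ {0}ᶜ := by
    rintro z ⟨hz, _⟩ rfl
    simp at hz
    linarith
  have hDm : MeasurableSet D := by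
    rw [D_eq]
    exact measurableEquivRealProd.measurable (measurableSet_regionBetween measurable_const
      (measurable_const.div measurable_id) measurableSet_Ioi)
  refine top_unique ?_
  calc (⊤ : ℝ≥0∞) = ENNReal.ofReal (1 / 1024) * volume D := by
        rw [volume_D, ENNReal.mul_top]
        simp
    _ = ∫⁻ _ in D, ENNReal.ofReal (1 / 1024) := (setLIntegral_const _ _).symm
    _ ≤ ∫⁻ p in D, ENNReal.ofReal (|gaussCurvature X p| * areaDensity X p) := by
        apply setLIntegral_mono' hDm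
        intro z hz
        exact ENNReal.ofReal_le_ofReal (curvature_lower hz.1 hz.2.1 hz.2.2)
    _ ≤ _ := lintegral_mono_set hsub

/-! ### Topology of the domain -/

theorem isSphereWithPunctures : IsSphereWithPunctures ({0}ᶜ : Set ℂ) := by
  refine ⟨isConnected_compl_singleton_of_one_lt_rank (by simp) 0, ?_⟩
  classical
  refine ⟨{((0 : ℂ) : OnePoint ℂ), OnePoint.infty}, ?_, ⟨?_⟩⟩
  · rw [Finset.card_pair (OnePoint.coe_ne_infty _)]
  · have hmem : ∀ x : OnePoint ℂ, x ∉ ({((0 : ℂ) : OnePoint ℂ), OnePoint.infty} :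
        Finset (OnePoint ℂ)) ↔ x ≠ ((0 : ℂ) : OnePoint ℂ) ∧ x ≠ OnePoint.infty := by
      intro x
      simp
    let f : ({0}ᶜ : Set ℂ) → {x : OnePoint ℂ // x ∉ ({((0 : ℂ) : OnePoint ℂ), OnePoint.infty} :
        Finset (OnePoint ℂ))} := fun z => ⟨((z : ℂ) : OnePoint ℂ), (hmem _).2
          ⟨fun h => z.2 (OnePoint.coe_injective h), OnePoint.coe_ne_infty _⟩⟩
    have hcont : Continuous f := by
      apply Continuous.subtype_mk
      exact OnePoint.continuous_coe.comp continuous_subtype_val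
    have hinj : Function.Injective f := by
      intro a b h
      have := congrArg Subtype.val h
      exact Subtype.ext (OnePoint.coe_injective this)
    have hsurj : Function.Surjective f := by
      rintro ⟨x, hx⟩
      obtain ⟨hx1, hx2⟩ := (hmem x).1 hx
      obtain ⟨z, rfl⟩ := OnePoint.ne_infty_iff_exists.1 hx2
      refine ⟨⟨z, fun h => hx1 (by rw [show z = 0 from h])⟩, rfl⟩
    have hopen : IsOpenMap f := by
      have h1 : IsOpenMap (fun z : ({0}ᶜ : Set ℂ) => ((z : ℂ) : OnePoint ℂ)) :=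
        OnePoint.isOpenEmbedding_coe.isOpenMap.comp (isOpen_compl_singleton.isOpenMap_subtype_val)
      intro V hV
      rw [isOpen_induced_iff]
      refine ⟨_, h1 V hV, ?_⟩
      ext ⟨x, hx⟩
      simp only [mem_preimage, mem_image]
      constructor
      · rintro ⟨z, hz, rfl⟩
        exact ⟨z, hz, rfl⟩
      · rintro ⟨z, hz, h⟩
        exact ⟨z, hz, congrArg Subtype.val h⟩
    exact (Equiv.ofBijective f ⟨hinj, hsurj⟩).toHomeomorphOfContinuousOpen hcont hopen

/-- **A properly embedded complete stationary surface in `ℝ⁴₁` with two ends and infinite total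
Gaussian curvature.** There are an open set `U` of the plane, homeomorphic to the sphere minus at
least two points, and a smooth map `X : U → ℝ⁴₁` which is a spacelike immersion with vanishing mean
curvature vector, injective, proper, complete for the induced metric, with `∫ |K| dA = ∞`. -/
theorem result : ∃ (U : Set ℂ) (X : ℂ → Fin 4 → ℝ),
    IsOpen U ∧ IsSphereWithPunctures U ∧ ContDiffOn ℝ ∞ X U ∧ IsSpacelikeOn X U ∧
      HasZeroMeanCurvatureOn X U ∧ InjOn X U ∧ IsProperMap (fun p : U => X p) ∧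
      IsCompleteOn X U ∧ totalAbsCurvature X U = ⊤ :=
  ⟨{0}ᶜ, X, isOpen_compl_singleton, isSphereWithPunctures, contDiffOn_X, spacelike, zeroMean,
    injOn_X, isProperMap_X, complete_X, totalCurvature_X⟩

end

end Pool.Agent.Results.MP_7009f9_gt.TwistedCatenoid
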